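import Pool.Agent.MP_ab7c65_al.Mg.GS

/-!
A Golod-Shafarevich group with 3 generators and 6 relators all of whose finite index subgroups
have finite abelianisation; it is not large.
-/

set_option autoImplicit false

namespace Pool.Agent.Results.MP_ab7c65_al.DeficiencyThree

open Pool.Agent.MP_ab7c65_al

lemma finite_ab {H : Type} [Group H] [Group.FG H]
    (h : ∀ (ψ : H →* Multiplicative ℤ) (x : H), ψ x = 1) : Finite (Abelianization H) := by
  have hfg : Group.FG (Abelianization H) :=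
    Group.fg_of_surjective (f := Abelianization.of) (QuotientGroup.mk'_surjective _)
  have hfin : Module.Finite ℤ (Additive (Abelianization H)) :=
    Module.Finite.iff_addGroup_fg.mpr (AddGroup.fg_iff_mul_fg.mpr hfg)
  refine Module.finite_of_fg_torsion (Additive (Abelianization H)) (fun x => ?_)
  by_contra hx
  have h0 : (Submodule.torsion ℤ (Additive (Abelianization H))).mkQ x ≠ 0 := by
    intro h1
    exact hx ((Submodule.Quotient.mk_eq_zero _).mp h1)
  obtain ⟨f, hf⟩ := Module.Projective.exists_dual_ne_zero ℤ h0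
  let φ : Additive (Abelianization H) →+ ℤ :=
    (f.comp (Submodule.torsion ℤ (Additive (Abelianization H))).mkQ).toAddMonoidHom
  obtain ⟨y, hy⟩ : ∃ y : H, Abelianization.of y = Additive.toMul x :=
    QuotientGroup.mk'_surjective _ _
  have := h ((AddMonoidHom.toMultiplicativeRight φ).comp Abelianization.of) y
  rw [MonoidHom.comp_apply, hy] at this
  exact hf this

lemma nu_facts : ∃ ν : ℤ, 2 ≤ ν ∧ (37 : ℤ) ∣ 4 * ν - 1 ∧
    ∀ r : ℕ, r.Prime → r ≤ 35 → (r : ℤ) ∣ 4 * ν := by
  refine ⟨(Nat.factorial 35 / 4 : ℕ), by norm_num [Nat.factorial], by norm_num [Nat.factorial],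
    fun r hr h => ?_⟩
  have e : (4 * ((Nat.factorial 35 / 4 : ℕ) : ℤ)) = (Nat.factorial 35 : ℕ) := by
    norm_num [Nat.factorial]
  rw [e]
  exact Int.natCast_dvd_natCast.mpr (Nat.dvd_factorial hr.pos h)

theorem result :
  ∃ (G : Type) (_ : Group G),
    (∃ (p : ℕ), p.Prime ∧ ∃ (d : ℕ) (R : Set (FreeGroup (Fin d))) (deg : FreeGroup (Fin d) → ℕ),
      Nonempty (G ≃* PresentedGroup R) ∧
      (∀ r ∈ R, MonoidAlgebra.of (ZMod p) (FreeGroup (Fin d)) r - 1 ∈
          Submodule.span (ZMod p)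
            (Set.range (fun g : FreeGroup (Fin d) =>
              MonoidAlgebra.of (ZMod p) (FreeGroup (Fin d)) g - 1)) ^ (deg r + 1)) ∧
      ∃ τ : ℝ, 0 < τ ∧ τ < 1 ∧ Summable (fun r : R => τ ^ (deg r + 1)) ∧
        1 - (d : ℝ) * τ + ∑' r : R, τ ^ (deg r + 1) < 0) ∧
    (∃ rels : Fin 6 → FreeGroup (Fin 3), Nonempty (G ≃* PresentedGroup (Set.range rels))) ∧
    (∀ H : Subgroup G, H.FiniteIndex → Finite (Abelianization H)) ∧
    ¬ ∃ H : Subgroup G, H.FiniteIndex ∧ ∃ f : H →* FreeGroup (Fin 2), Function.Surjective f := by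
  classical
  obtain ⟨ν, hν, h37, hμ⟩ := nu_facts
  let x : Fin 3 → FreeGroup (Fin 3) := FreeGroup.of
  obtain ⟨r1, m1, k1⟩ := exists_s2 h37 (x 0) (x 1)
  obtain ⟨r2, m2, k2⟩ := exists_s2 h37 (x 1) (x 2)
  obtain ⟨r3, m3, k3⟩ := exists_s2 h37 (x 2) (x 0)
  let rels : Fin 6 → FreeGroup (Fin 3) :=
    ![s1 (x 0) (x 1), s1 (x 1) (x 2), s1 (x 2) (x 0), r1, r2, r3]
  let π : FreeGroup (Fin 3) →* PresentedGroup (Set.range rels) := PresentedGroup.mk _
  have hπ : ∀ i, π (rels i) = 1 := fun i =>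
    PresentedGroup.one_of_mem (Set.mem_range_self i)
  have hgen : Subgroup.closure {π (x 0), π (x 1), π (x 2)} = ⊤ := by
    rw [← PresentedGroup.closure_range_of]
    congr 1
    ext y
    simp only [Set.mem_insert_iff, Set.mem_singleton_iff, Set.mem_range, Fin.exists_fin_succ,
      Fin.succ_zero_eq_one, Fin.succ_one_eq_two, IsEmpty.exists_iff, or_false, eq_comm]
    rfl
  have key : ∀ (H : Subgroup (PresentedGroup (Set.range rels))), H.FiniteIndex →
      ∀ (ψ : H →* Multiplicative ℤ) (h : H), ψ h = 1 := fun H _ ψ h =>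
    hom_trivial (k1 π (hπ 0) (hπ 3)) (k2 π (hπ 1) (hπ 4)) (k3 π (hπ 2) (hπ 5)) hν hμ hgen H ψ h
  refine ⟨PresentedGroup (Set.range rels), inferInstance, ⟨37, by norm_num, 3, Set.range rels,
    fun r => if r ∈ Zs (FreeGroup (Fin 3)) 4 then 4 else 2, ⟨MulEquiv.refl _⟩, ?_, 1 / 2,
    by norm_num, by norm_num, ?_, ?_⟩, ⟨rels, ⟨MulEquiv.refl _⟩⟩, ?_, ?_⟩
  · rintro _ ⟨i, rfl⟩
    show rels i ∈ Zs (FreeGroup (Fin 3)) (if rels i ∈ Zs (FreeGroup (Fin 3)) 4 then 4 else 2)
    split_ifs with h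
    · exact h
    · fin_cases i
      · exact s1_mem _ _
      · exact s1_mem _ _
      · exact s1_mem _ _
      · exact absurd m1 h
      · exact absurd m2 h
      · exact absurd m3 h
  · exact Summable.of_finite
  · let t : FreeGroup (Fin 3) → ℝ := fun r =>
      (1 / 2 : ℝ) ^ ((if r ∈ Zs (FreeGroup (Fin 3)) 4 then 4 else 2) + 1)
    have e : ∑' r : Set.range rels, t r = ∑ r ∈ Finset.univ.image rels, t r := by
      rw [← Finset.tsum_subtype', Finset.coe_image, Finset.coe_univ, Set.image_univ]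
    have i1 : ∑ r ∈ Finset.univ.image rels, t r ≤ ∑ i, t (rels i) :=
      Finset.sum_image_le_of_nonneg (fun _ _ => by positivity)
    have i2 : ∀ r, t r ≤ 1 / 8 := by
      intro r; simp only [t]; split_ifs <;> norm_num
    have i3 : ∀ r ∈ Zs (FreeGroup (Fin 3)) 4, t r = 1 / 32 := by
      intro r hr; simp only [t, if_pos hr]; norm_num
    have i4 : ∑ i, t (rels i) ≤ 3 / 8 + 3 / 32 := by
      rw [Fin.sum_univ_six]
      have a0 := i2 (rels 0)
      have a1 := i2 (rels 1)
      have a2 := i2 (rels 2)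
      have a3 : t (rels 3) = 1 / 32 := i3 _ m1
      have a4 : t (rels 4) = 1 / 32 := i3 _ m2
      have a5 : t (rels 5) = 1 / 32 := i3 _ m3
      linarith
    show 1 - ((3 : ℕ) : ℝ) * (1 / 2) + ∑' r : Set.range rels, t r < 0
    rw [e]
    push_cast
    linarith
  · intro H hH
    have : Group.FG (PresentedGroup (Set.range rels)) :=
      Group.fg_of_surjective (PresentedGroup.mk_surjective _)
    exact finite_ab (key H hH)
  · rintro ⟨H, hH, f, hf⟩
    obtain ⟨h, hh⟩ := hf (FreeGroup.of 0)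
    have := key H hH ((FreeGroup.lift (fun _ => Multiplicative.ofAdd (1 : ℤ))).comp f) h
    rw [MonoidHom.comp_apply, hh, FreeGroup.lift_apply_of] at this
    exact absurd this (by decide)

end Pool.Agent.Results.MP_ab7c65_al.DeficiencyThree
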