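import Pool.Agent.MP_ab7c65_al.H52T.Exp
import Pool.Agent.MP_ab7c65_al.H11X.Grp

/-!
Groups with `d` generators and at most `C * d` relators, all of Zassenhaus degree at least
two, with Serre's property FH; they are Golod-Shafarevich and not large.
-/

set_option autoImplicit false

namespace Pool.Agent.Results.MP_ab7c65_al.FewRelators

open Pool.Agent.MP_ab7c65_al.H52T Pool.Agent.MP_ab7c65_al.H11X Pool.Agent.MP_ab7c65_al.PF

theorem result : ∃ C : ℕ, ∀ (p : ℕ), p.Prime → ∀ d₀ : ℕ,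
  ∃ (d n : ℕ) (rels : Fin n → FreeGroup (Fin d)),
    d₀ ≤ d ∧ n ≤ C * d ∧ 4 * n < d ^ 2 ∧
    (∀ i, MonoidAlgebra.of (ZMod p) (FreeGroup (Fin d)) (rels i) - 1 ∈
        Submodule.span (ZMod p)
          (Set.range (fun g : FreeGroup (Fin d) =>
            MonoidAlgebra.of (ZMod p) (FreeGroup (Fin d)) g - 1)) ^ 2) ∧
    (∃ τ : ℝ, 0 < τ ∧ τ < 1 ∧ 1 - (d : ℝ) * τ + (n : ℝ) * τ ^ 2 < 0) ∧
    (∀ (V : Type) [NormedAddCommGroup V] [InnerProductSpace ℝ V] [CompleteSpace V]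
      (α : PresentedGroup (Set.range rels) →* (V ≃ᵃⁱ[ℝ] V)), ∃ v : V, ∀ g, α g v = v) ∧
    ∀ H : Subgroup (PresentedGroup (Set.range rels)), H.FiniteIndex →
      Finite (Abelianization H) ∧ ¬ ∃ f : H →* FreeGroup (Fin 2), Function.Surjective f := by
  classical
  obtain ⟨m, hm, hX⟩ := exists_expander (1 / 10) (by norm_num)
  obtain ⟨c, hc⟩ := exists_group2 m hm
  refine ⟨8 * c + 1, fun p hp d₀ => ?_⟩
  have : Fact p.Prime := ⟨hp⟩
  obtain ⟨N, _, R, hN, hR, hE⟩ := hX (8 * (d₀ + 4 * (8 * c + 1) + 3))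
  have : Nonempty N := Fintype.card_pos_iff.mp (by omega)
  obtain ⟨d, n, rels, hd, hn, hZ, hF⟩ := hc p N R hR (fun V _ _ f hf => by
    rw [Fintype.card_fin]; exact hE V f hf)
  have h1 : n ≤ (8 * c + 1) * d := by nlinarith [Nat.mul_le_mul_left c hd]
  have h2 : 4 * (8 * c + 1) < d := by omega
  have h4 : 4 * n < d ^ 2 := by nlinarith
  refine ⟨d, n, rels, by omega, h1, h4, hZ, ?_, hF, fun H _ => ⟨?_, ?_⟩⟩
  · have d0 : (2 : ℝ) < d := by exact_mod_cast (show 2 < d by omega)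
    have a1 : 4 * (n : ℝ) < (d : ℝ) ^ 2 := by exact_mod_cast h4
    refine ⟨2 / d, by positivity, by rw [div_lt_one (by linarith)]; exact d0, ?_⟩
    have a2 : (n : ℝ) * (2 / d) ^ 2 < 1 := by
      rw [div_pow, ← mul_div_assoc, div_lt_one (by positivity)]; linarith
    rw [mul_div_cancel₀ _ (by linarith)]
    linarith
  · have : Group.FG (PresentedGroup (Set.range rels)) :=
      Group.fg_of_surjective (PresentedGroup.mk_surjective _)
    exact finite_ab (hom_trivial_of_fixed hF H)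
  · rintro ⟨φ, hφ⟩
    obtain ⟨h, hh⟩ := hφ (FreeGroup.of 0)
    have := hom_trivial_of_fixed hF H
      ((FreeGroup.lift (fun _ => Multiplicative.ofAdd (1 : ℤ))).comp φ) h
    rw [MonoidHom.comp_apply, hh, FreeGroup.lift_apply_of] at this
    exact absurd this (by decide)

end Pool.Agent.Results.MP_ab7c65_al.FewRelators
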