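import Pool.Agent.MP_ab7c65_al.Mg.PF_Fab

/-!
For every prime `p ≥ 23` a group with two generators and two relators which is Golod-Shafarevich
with respect to `p` and in which every subgroup containing a normal subgroup of `p`-power index
has finite abelianisation.
-/

set_option autoImplicit false

namespace Pool.Agent.Results.MP_ab7c65_al.NotPLarge

open Pool.Agent.MP_ab7c65_al.PF

theorem result (p : ℕ) (hp : p.Prime) (h23 : 23 ≤ p) :
  ∃ (G : Type) (_ : Group G),
    (∃ (d : ℕ) (R : Set (FreeGroup (Fin d))) (deg : FreeGroup (Fin d) → ℕ),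
      Nonempty (G ≃* PresentedGroup R) ∧
      (∀ r ∈ R, MonoidAlgebra.of (ZMod p) (FreeGroup (Fin d)) r - 1 ∈
          Submodule.span (ZMod p)
            (Set.range (fun g : FreeGroup (Fin d) =>
              MonoidAlgebra.of (ZMod p) (FreeGroup (Fin d)) g - 1)) ^ (deg r + 1)) ∧
      ∃ τ : ℝ, 0 < τ ∧ τ < 1 ∧ Summable (fun r : R => τ ^ (deg r + 1)) ∧
        1 - (d : ℝ) * τ + ∑' r : R, τ ^ (deg r + 1) < 0) ∧
    (∃ rels : Fin 2 → FreeGroup (Fin 2), Nonempty (G ≃* PresentedGroup (Set.range rels))) ∧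
    ∀ H K : Subgroup G, K.Normal → (∃ n : ℕ, K.index = p ^ n) → K ≤ H →
      Finite (Abelianization H) ∧ ¬ ∃ f : H →* FreeGroup (Fin 2), Function.Surjective f := by
  classical
  have : Fact p.Prime := ⟨hp⟩
  let x : Fin 2 → FreeGroup (Fin 2) := FreeGroup.of
  let rels : Fin 2 → FreeGroup (Fin 2) := fun i => x i ^ p * (itc (x i) 4 (x (i + 1)))⁻¹
  let π : FreeGroup (Fin 2) →* PresentedGroup (Set.range rels) := PresentedGroup.mk _
  have hπ : ∀ i, π (x i) ^ p = itc (π (x i)) 4 (π (x (i + 1))) := fun i => by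
    have : π (rels i) = 1 := PresentedGroup.one_of_mem (Set.mem_range_self i)
    rwa [map_mul, map_inv, mul_inv_eq_one, map_pow, map_itc] at this
  have key : ∀ H K : Subgroup (PresentedGroup (Set.range rels)), K.Normal →
      (∃ n : ℕ, K.index = p ^ n) → K ≤ H →
      H.FiniteIndex ∧ ∀ (ψ : H →* Multiplicative ℤ) (h : H), ψ h = 1 := by
    rintro H K _ ⟨n, hn⟩ hKH
    have : K.FiniteIndex := ⟨by rw [hn]; exact pow_ne_zero _ hp.ne_zero⟩
    refine ⟨Subgroup.finiteIndex_of_le hKH, hom_trivial (p := p) (by omega)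
      (a := fun j => π (x j)) (PresentedGroup.closure_range_of _) (fun j => ?_) (fun i j hij => ?_)
      (IsPGroup.of_card hn) hKH⟩
    · rw [hπ]
      exact ga_anti (by norm_num) (itc_cl (k := ℚ) _ _ 4).1
    · obtain rfl : j = i + 1 := by omega
      rw [itc_succ, ← hπ, commutatorElement_eq_one_iff_commute]
      exact Commute.self_pow _ _
  refine ⟨PresentedGroup (Set.range rels), inferInstance, ⟨2, Set.range rels, fun _ => 4,
    ⟨MulEquiv.refl _⟩, ?_, 7 / 10, by norm_num, by norm_num, Summable.of_finite, ?_⟩,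
    ⟨rels, ⟨MulEquiv.refl _⟩⟩, fun H K h1 h2 h3 => ⟨?_, ?_⟩⟩
  · rintro _ ⟨i, rfl⟩
    exact (Za p _ 4).mul_mem (pow_mem_Za _ (by omega)) (inv_mem (itc_mem_Za _ _ _))
  · let t : FreeGroup (Fin 2) → ℝ := fun _ => (7 / 10 : ℝ) ^ (4 + 1)
    have e : ∑' r : Set.range rels, t r = ∑ r ∈ Finset.univ.image rels, t r := by
      rw [← Finset.tsum_subtype', Finset.coe_image, Finset.coe_univ, Set.image_univ]
    have i1 : ∑ r ∈ Finset.univ.image rels, t r ≤ ∑ i, t (rels i) :=
      Finset.sum_image_le_of_nonneg (fun _ _ => by positivity)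
    change 1 - ((2 : ℕ) : ℝ) * (7 / 10) + ∑' r : Set.range rels, t r < 0
    rw [e]
    refine (add_le_add_right i1 _).trans_lt ?_
    simp only [t, Fin.sum_univ_two]
    norm_num
  · obtain ⟨_, h⟩ := key H K h1 h2 h3
    have : Group.FG (PresentedGroup (Set.range rels)) :=
      Group.fg_of_surjective (PresentedGroup.mk_surjective _)
    exact finite_ab h
  · rintro ⟨f, hf⟩
    obtain ⟨h, hh⟩ := hf (FreeGroup.of 0)
    have := (key H K h1 h2 h3).2
      ((FreeGroup.lift (fun _ => Multiplicative.ofAdd (1 : ℤ))).comp f) h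
    rw [MonoidHom.comp_apply, hh, FreeGroup.lift_apply_of] at this
    exact absurd this (by decide)

end Pool.Agent.Results.MP_ab7c65_al.NotPLarge
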